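import Pool.Agent.Q267.Kos.Cycle

/-!
# The monomial cycle is not a boundary
-/

open MvPolynomial TensorProduct

namespace Pool.Agent.Q267.Kos

variable {k : Type*} [Field k] {n : ℕ}

/-- the functional `coefficient of the monomial e` on forms of degree `m` -/
noncomputable def coefForm (k : Type*) [Field k] (n m : ℕ) (e : Fin (n + 1) →₀ ℕ) :
    Form k n m →ₗ[k] k := (lcoeff k e) ∘ₗ (poly k n m)

theorem coefForm_apply (m : ℕ) (e : Fin (n + 1) →₀ ℕ) (s : Form k n m) :
    coefForm k n m e s = coeff e (poly k n m s) := rfl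

theorem coefForm_monForm {m : ℕ} {e e' : Fin (n + 1) →₀ ℕ} (h : e.degree = m) :
    coefForm k n m e' (monForm k n m e) = if e = e' then 1 else 0 := by
  rw [coefForm_apply, poly_monForm h, coeff_monomial]

variable {d m p : ℕ} (f : Fin (n + 1) →₀ ℕ) (mon : Fin p → Fin (n + 1) →₀ ℕ)
  (jj : Fin p → Fin (n + 1))

theorem cyc_value (hf : f.degree = m) (hmon : ∀ i, (mon i).degree = d)
    (hinj : Function.Injective mon)
    (hpure : ∀ i i', mon i ≠ Finsupp.single (jj i') d) :
    coefForm k n m f (tee _ (fun i => coefForm k n d (mon i)) (cyc f mon jj k d m)) = 1 := by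
  unfold cyc
  simp only [map_sum, map_smul, tee_tmul]
  rw [Finset.sum_eq_single_of_mem ∅ (Finset.mem_univ _)]
  · have h1 : (Matrix.of fun i j => coefForm k n d (mon j) (wvec mon jj k d ∅ i)) = 1 := by
      ext i j
      rw [Matrix.of_apply, Matrix.one_apply]
      simp only [wvec, Finset.piecewise_empty]
      rw [coefForm_monForm (hmon i)]
      simp only [hinj.eq_iff]
    have h2 : cexp f mon jj d ∅ = f := by
      unfold cexp
      simp
    rw [h1, h2, coefForm_monForm hf]
    simp
  · intro A _ hA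
    obtain ⟨i, hi⟩ := Finset.nonempty_iff_ne_empty.2 hA
    have h1 : (Matrix.of fun i j => coefForm k n d (mon j) (wvec mon jj k d A i)).det = 0 := by
      apply Matrix.det_eq_zero_of_row_eq_zero i
      intro j
      rw [Matrix.of_apply]
      unfold wvec
      rw [Finset.piecewise_eq_of_mem _ _ _ hi, coefForm_monForm (Finsupp.degree_single _ _),
        if_neg (fun h => hpure j i h.symm)]
    rw [h1]
    simp

theorem mul_coef (hinj : Function.Injective mon)
    (hD : ∀ e : Fin (n + 1) →₀ ℕ, e.degree = d → e ≤ f → ∃ i, mon i = e) (g : Form k n m) :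
    ∃ c : Fin p → k, ∀ s : Form k n d,
      coefForm k n (m + d) f (mulForm k n d m s g) = ∑ b, c b * coefForm k n d (mon b) s := by
  classical
  refine ⟨fun b => if mon b ≤ f then coeff (f - mon b) (poly k n m g) else 0, fun s => ?_⟩
  rw [coefForm_apply, poly_mulForm, coeff_mul]
  simp only [ite_mul, zero_mul]
  rw [← Finset.sum_filter]
  symm
  apply Finset.sum_of_injOn (fun b => (mon b, f - mon b))
  · intro b _ b' _ h
    exact hinj (congrArg Prod.fst h)
  · intro b hb
    rw [Finset.mem_coe, Finset.mem_filter] at hb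
    rw [Finset.mem_coe, Finset.HasAntidiagonal.mem_antidiagonal]
    exact add_tsub_cancel_of_le hb.2
  · rintro ⟨u, v⟩ huv hn
    rw [Finset.HasAntidiagonal.mem_antidiagonal] at huv
    have hle : u ≤ f := huv ▸ le_self_add
    by_contra h0
    have hu : coeff u (poly k n d s) ≠ 0 := left_ne_zero_of_mul h0
    have hdeg : u.degree = d := by
      have := isHomogeneous_poly d s hu
      rw [← this, Finsupp.degree_eq_weight_one]
      rfl
    obtain ⟨i, hi⟩ := hD u hdeg hle
    apply hn
    refine ⟨i, ?_, ?_⟩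
    · rw [Finset.mem_coe, Finset.mem_filter]
      exact ⟨Finset.mem_univ _, hi ▸ hle⟩
    · simp only [Prod.mk.injEq]
      refine ⟨hi, ?_⟩
      rw [hi, ← huv, add_tsub_cancel_left]
  · intro b _
    rw [coefForm_apply]
    ring

theorem cyc_not_range (hf : f.degree = m + d) (hmon : ∀ i, (mon i).degree = d)
    (hinj : Function.Injective mon)
    (hD : ∀ e : Fin (n + 1) →₀ ℕ, e.degree = d → e ≤ f → ∃ i, mon i = e)
    (hpure : ∀ i i', mon i ≠ Finsupp.single (jj i') d)
    {D : (⋀[k]^(p + 1) (Form k n d)) ⊗[k] Form k n m →ₗ[k]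
      (⋀[k]^p (Form k n d)) ⊗[k] Form k n (m + d)}
    (hk : IsKoszul (mulForm k n d m) p D) (y : (⋀[k]^(p + 1) (Form k n d)) ⊗[k] Form k n m) :
    D y ≠ cyc f mon jj k d (m + d) := by
  intro hy
  have h1 := functional_range hk (fun i => coefForm k n d (mon i))
    (coefForm k n (m + d) f) (mul_coef f mon hinj hD) y
  rw [hy, cyc_value f mon jj hf hmon hinj hpure] at h1
  exact one_ne_zero h1

/-- The nonvanishing criterion. -/
theorem nonzero_of_mons {m r : ℕ} (hf : f.degree = m + d)
    (mon : Fin (r + 1) → Fin (n + 1) →₀ ℕ) (jj : Fin (r + 1) → Fin (n + 1))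
    (hmon : ∀ i, (mon i).degree = d)
    (hinj : Function.Injective mon)
    (hD : ∀ e : Fin (n + 1) →₀ ℕ, e.degree = d → e ≤ f → ∃ i, mon i = e)
    (hpure : ∀ i i', mon i ≠ Finsupp.single (jj i') d)
    (h : ∀ i, Finsupp.single (jj i) d ≤ mon i + f) :
    KoszulNonzero k (mulForm k n d m) (mulForm k n d (m + d)) r := by
  obtain ⟨D₁, hD₁⟩ := exists_isKoszul_form k n d m (r + 1)
  obtain ⟨D₀, hD₀⟩ := exists_isKoszul_form k n d (m + d) r
  exact ⟨D₁, D₀, hD₁, hD₀, cyc f mon jj k d (m + d), cyc_cycle f mon jj hf h hmon hD₀,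
    cyc_not_range f mon jj hf hmon hinj hD hpure hD₁⟩

end Pool.Agent.Q267.Kos
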