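import Mathlib

/-!
# Counting the monomials
-/

namespace Pool.Agent.Q267.Kos

open Finset

variable {n : ℕ}

theorem card_antidiag (s : Finset (Fin (n + 1))) (t d : ℕ) (hs : s.card = t + 1) :
    (s.finsuppAntidiag d).card = (d + t).choose t := by
  rw [card_finsuppAntidiag_nat_eq_choose, hs, add_right_comm, Nat.add_sub_cancel,
    Nat.add_comm t d, Nat.choose_symm_add]

/-- the vectors of total degree `d` supported in `s` with entry at `a` at least `c` -/
noncomputable def shift (s : Finset (Fin (n + 1))) (a : Fin (n + 1)) (c d : ℕ) :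
    Finset (Fin (n + 1) →₀ ℕ) :=
  (s.finsuppAntidiag (d - c)).image (fun e => e + Finsupp.single a c)

theorem card_shift (s : Finset (Fin (n + 1))) (a : Fin (n + 1)) (c d t : ℕ)
    (hs : s.card = t + 1) : (shift s a c d).card = (d - c + t).choose t := by
  unfold shift
  rw [card_image_of_injective _ (add_left_injective _), card_antidiag s t _ hs]

theorem shift_subset (s : Finset (Fin (n + 1))) (a : Fin (n + 1)) (ha : a ∈ s) (c d : ℕ)
    (hc : c ≤ d) : shift s a c d ⊆ s.finsuppAntidiag d := by
  intro e he
  unfold shift at he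
  rw [mem_image] at he
  obtain ⟨e', he', rfl⟩ := he
  rw [mem_finsuppAntidiag'] at he' ⊢
  constructor
  · rw [Finsupp.sum_add_index' (fun _ => rfl) (fun _ _ _ => rfl), he'.1,
      Finsupp.sum_single_index rfl]
    omega
  · refine Finsupp.support_add.trans (union_subset he'.2 ?_)
    exact Finsupp.support_single_subset.trans (singleton_subset_iff.2 ha)

theorem le_of_mem_shift {s : Finset (Fin (n + 1))} {a : Fin (n + 1)} {c d : ℕ}
    {e : Fin (n + 1) →₀ ℕ} (he : e ∈ shift s a c d) : c ≤ e a := by
  unfold shift at he
  rw [mem_image] at he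
  obtain ⟨e', _, rfl⟩ := he
  simp

theorem mem_univ_antidiag (d : ℕ) (e : Fin (n + 1) →₀ ℕ) :
    e ∈ (univ : Finset (Fin (n + 1))).finsuppAntidiag d ↔ e.degree = d := by
  rw [mem_finsuppAntidiag, Finsupp.degree_eq_sum]
  exact and_iff_left (subset_univ _)

theorem mem_antidiag (s : Finset (Fin (n + 1))) (d : ℕ) (e : Fin (n + 1) →₀ ℕ) :
    e ∈ s.finsuppAntidiag d ↔ e.degree = d ∧ ∀ i, i ∉ s → e i = 0 := by
  rw [mem_finsuppAntidiag']
  constructor
  · rintro ⟨h1, h2⟩
    exact ⟨h1, fun i hi => by
      by_contra h
      exact hi (h2 (Finsupp.mem_support_iff.2 h))⟩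
  · rintro ⟨h1, h2⟩
    refine ⟨h1, fun i hi => ?_⟩
    by_contra h
    exact (Finsupp.mem_support_iff.1 hi) (h2 i h)

/-- the exponent vector `(d-1, …, d-1, q+b, 0, …, 0)` with `q` entries `d - 1` -/
noncomputable def fexp (n d q b : ℕ) : Fin (n + 1) →₀ ℕ :=
  Finsupp.equivFunOnFinite.symm
    (fun i => if i.1 < q then d - 1 else if i.1 = q then q + b else 0)

theorem fexp_apply (n d q b : ℕ) (i : Fin (n + 1)) :
    fexp n d q b i = if i.1 < q then d - 1 else if i.1 = q then q + b else 0 := rfl

theorem degree_fexp {n d q b : ℕ} (hq : 1 ≤ q) (hqn : q ≤ n) (hd : b + q + 1 ≤ d) :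
    (fexp n d q b).degree = (q - 1) * d + b + d := by
  rw [Finsupp.degree_eq_sum]
  simp only [fexp_apply]
  rw [Fin.sum_univ_eq_sum_range (fun i => if i < q then d - 1 else if i = q then q + b else 0)
    (n + 1)]
  rw [← sum_subset (range_subset_range.2 (Nat.succ_le_succ hqn))]
  · rw [sum_range_succ, sum_congr rfl (g := fun _ => d - 1)]
    · rw [sum_const, card_range, if_neg (lt_irrefl q), if_pos rfl, smul_eq_mul]
      obtain ⟨r, rfl⟩ := Nat.exists_eq_add_of_le' hq
      obtain ⟨c, rfl⟩ := Nat.exists_eq_add_of_le' (show 1 ≤ d by omega)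
      simp only [Nat.add_sub_cancel]
      ring
    · intro i hi
      rw [mem_range] at hi
      rw [if_pos hi]
  · intro i _ hi
    rw [mem_range] at hi
    rw [if_neg (by omega), if_neg (by omega)]

/-- the exponent vectors of the monomials of degree `d` dividing `f` -/
noncomputable def Dset (n d q b : ℕ) : Finset (Fin (n + 1) →₀ ℕ) :=
  ((univ : Finset (Fin (n + 1))).finsuppAntidiag d).filter (fun e => e ≤ fexp n d q b)

open Classical in
/-- the exponent vectors of the monomials `g` of degree `d`, not pure powers, such that `g f` is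
divisible by the `d`-th power of a variable -/
noncomputable def Zset (n d q b : ℕ) : Finset (Fin (n + 1) →₀ ℕ) :=
  ((univ : Finset (Fin (n + 1))).finsuppAntidiag d).filter
    (fun e => (∀ j, e ≠ Finsupp.single j d) ∧ ∃ j, Finsupp.single j d ≤ e + fexp n d q b)

theorem single_le_iff (j : Fin (n + 1)) (d : ℕ) (g : Fin (n + 1) →₀ ℕ) :
    Finsupp.single j d ≤ g ↔ d ≤ g j := by
  constructor
  · intro h
    have := h j
    rwa [Finsupp.single_eq_same] at this
  · intro h i
    by_cases hij : j = i
    · subst hij
      rwa [Finsupp.single_eq_same]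
    · rw [Finsupp.single_apply, if_neg hij]
      exact Nat.zero_le _

theorem fexp_lt {n d q b : ℕ} (hd : b + q + 1 ≤ d) (i : Fin (n + 1)) : fexp n d q b i < d := by
  rw [fexp_apply]
  split_ifs <;> omega

theorem Dset_subset_Zset {n d q b : ℕ} (hd : b + q + 1 ≤ d) :
    Dset n d q b ⊆ Zset n d q b := by
  intro e he
  unfold Dset at he
  unfold Zset
  rw [mem_filter, mem_univ_antidiag] at he ⊢
  obtain ⟨hdeg, hle⟩ := he
  refine ⟨hdeg, ?_, ?_⟩
  · rintro j rfl
    have h1 := (single_le_iff j d _).1 hle
    have h2 := fexp_lt hd j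
    omega
  · by_contra hn
    push Not at hn
    -- every entry `e i` with `i < q` vanishes
    have h0 : ∀ i : Fin (n + 1), i.1 < q → e i = 0 := by
      intro i hi
      have h1 := hn i
      rw [single_le_iff, Finsupp.add_apply, fexp_apply, if_pos hi] at h1
      omega
    have h2 : ∀ i : Fin (n + 1), q < i.1 → e i = 0 := by
      intro i hi
      have h1 := hle i
      rw [fexp_apply, if_neg (by omega), if_neg (by omega)] at h1
      omega
    have h3 : e.degree ≤ q + b := by
      rw [Finsupp.degree_eq_sum]
      by_cases hqn : q ≤ n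
      · rw [sum_eq_single_of_mem (⟨q, by omega⟩ : Fin (n + 1)) (mem_univ _)]
        · have h1 := hle ⟨q, by omega⟩
          rw [fexp_apply, if_neg (lt_irrefl q), if_pos rfl] at h1
          exact h1
        · intro i _ hi
          rcases lt_trichotomy i.1 q with h | h | h
          · exact h0 i h
          · exact absurd (Fin.ext h) hi
          · exact h2 i h
      · rw [sum_eq_zero]
        · exact Nat.zero_le _
        · intro i _
          exact h0 i (by omega)
    omega

theorem card_Dset {n d q b : ℕ} (hqn : q ≤ n) (hd : b + q + 1 ≤ d) :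
    (Dset n d q b).card + (d - b - 1).choose q + q ≤ (d + q).choose q := by
  set qf : Fin (n + 1) := ⟨q, by omega⟩ with hqf
  have hG : ((Iic qf).finsuppAntidiag d).card = (d + q).choose q :=
    card_antidiag _ q d (by rw [Fin.card_Iic])
  have hE1 : (shift (Iic qf) qf (q + b + 1) d).card = (d - b - 1).choose q := by
    rw [card_shift _ _ _ _ q (by rw [Fin.card_Iic])]
    congr 1
    omega
  have hE2 : ((Iio qf).image (fun j => Finsupp.single j d)).card = q := by
    rw [card_image_of_injective _ (Finsupp.single_left_injective (by omega)), Fin.card_Iio]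
  have hdis1 : Disjoint (Dset n d q b) (shift (Iic qf) qf (q + b + 1) d) := by
    rw [disjoint_left]
    intro e he he'
    unfold Dset at he
    rw [mem_filter] at he
    have h1 := he.2 qf
    have h2 := le_of_mem_shift he'
    rw [fexp_apply, if_neg (lt_irrefl q), if_pos rfl] at h1
    omega
  have hdis2 : Disjoint (Dset n d q b ∪ shift (Iic qf) qf (q + b + 1) d)
      ((Iio qf).image (fun j => Finsupp.single j d)) := by
    rw [disjoint_left]
    intro e he he'
    rw [mem_image] at he'
    obtain ⟨j, hj, rfl⟩ := he'
    rw [mem_Iio] at hj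
    rw [mem_union] at he
    rcases he with he | he
    · unfold Dset at he
      rw [mem_filter] at he
      have h1 := (single_le_iff j d _).1 he.2
      have h2 := fexp_lt hd j
      omega
    · have h2 := le_of_mem_shift he
      rw [Finsupp.single_apply, if_neg (ne_of_lt hj)] at h2
      omega
  have hle : (Dset n d q b ∪ shift (Iic qf) qf (q + b + 1) d ∪
      (Iio qf).image (fun j => Finsupp.single j d)).card ≤ ((Iic qf).finsuppAntidiag d).card := by
    apply card_le_card
    apply union_subset (union_subset ?_ ?_) ?_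
    · intro e he
      unfold Dset at he
      rw [mem_filter, mem_univ_antidiag] at he
      rw [mem_antidiag]
      refine ⟨he.1, fun i hi => ?_⟩
      rw [mem_Iic, not_le] at hi
      have h1 := he.2 i
      have hi' : q < i.1 := hi
      rw [fexp_apply, if_neg (by omega), if_neg (by omega)] at h1
      omega
    · exact shift_subset _ _ (mem_Iic.2 le_rfl) _ _ (by omega)
    · intro e he
      rw [mem_image] at he
      obtain ⟨j, hj, rfl⟩ := he
      rw [mem_Iio] at hj
      rw [mem_antidiag]
      refine ⟨Finsupp.degree_single _ _, fun i hi => ?_⟩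
      rw [Finsupp.single_apply, if_neg]
      rintro rfl
      exact hi (mem_Iic.2 hj.le)
  rw [card_union_of_disjoint hdis2, card_union_of_disjoint hdis1, hG, hE1, hE2] at hle
  exact hle

/-- some monomial of degree `d` divides `f` -/
theorem Dset_nonempty {n d q b : ℕ} (hq : 1 ≤ q) (hqn : q ≤ n) (hd : b + q + 1 ≤ d) :
    (Dset n d q b).Nonempty := by
  refine ⟨Finsupp.single ⟨0, by omega⟩ (d - 1) + Finsupp.single ⟨q, by omega⟩ 1, ?_⟩
  unfold Dset
  rw [mem_filter, mem_univ_antidiag, map_add, Finsupp.degree_single, Finsupp.degree_single]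
  refine ⟨by omega, ?_⟩
  intro i
  rw [Finsupp.add_apply, Finsupp.single_apply, Finsupp.single_apply, fexp_apply]
  simp only [Fin.ext_iff]
  split_ifs <;> omega

theorem card_Zset {n d q b : ℕ} (hqn : q ≤ n) (hd : b + q + 1 ≤ d) :
    (d + n).choose n + (n + b).choose (n - q) ≤
      (Zset n d q b).card + (q + 1) + (d + n - q).choose (n - q) := by
  classical
  set qf : Fin (n + 1) := ⟨q, by omega⟩ with hqf
  have hcard : (Ici qf).card = n - q + 1 := by
    rw [Fin.card_Ici, hqf]
    simp only
    omega
  have hG : ((Ici qf).finsuppAntidiag d).card = (d + n - q).choose (n - q) := by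
    rw [card_antidiag _ (n - q) d hcard]
    congr 1
    omega
  have hA : ((univ : Finset (Fin (n + 1))).finsuppAntidiag d).card = (d + n).choose n :=
    card_antidiag _ n d (by rw [card_univ, Fintype.card_fin])
  have hE1 : (shift (Ici qf) qf (d - (q + b)) d).card = (n + b).choose (n - q) := by
    rw [card_shift _ _ _ _ (n - q) hcard]
    congr 1
    omega
  have hE3 : ((Iic qf).image (fun j => Finsupp.single j d)).card = q + 1 := by
    rw [card_image_of_injective _ (Finsupp.single_left_injective (by omega)), Fin.card_Iic]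
  set C' := ((Ici qf).finsuppAntidiag d).filter (fun e => e qf + (q + b) < d) with hC'
  have hdis : Disjoint C' (shift (Ici qf) qf (d - (q + b)) d) := by
    rw [disjoint_left]
    intro e he he'
    rw [hC', mem_filter] at he
    have h2 := le_of_mem_shift he'
    omega
  have hsub1 : C' ∪ shift (Ici qf) qf (d - (q + b)) d ⊆ (Ici qf).finsuppAntidiag d :=
    union_subset (filter_subset _ _) (shift_subset _ _ (mem_Ici.2 le_rfl) _ _ (by omega))
  have hsub2 : (univ : Finset (Fin (n + 1))).finsuppAntidiag d ⊆
      Zset n d q b ∪ (Iic qf).image (fun j => Finsupp.single j d) ∪ C' := by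
    intro e he
    rw [mem_union, mem_union]
    by_cases hZ : e ∈ Zset n d q b
    · exact Or.inl (Or.inl hZ)
    by_cases hP : e ∈ (Iic qf).image (fun j => Finsupp.single j d)
    · exact Or.inl (Or.inr hP)
    right
    rw [mem_univ_antidiag] at he
    have hZ' : ¬ ((∀ j, e ≠ Finsupp.single j d) ∧
        ∃ j, Finsupp.single j d ≤ e + fexp n d q b) := by
      intro h
      apply hZ
      unfold Zset
      rw [mem_filter, mem_univ_antidiag]
      exact ⟨he, h⟩
    by_cases hpure : ∃ j, e = Finsupp.single j d
    · obtain ⟨j, rfl⟩ := hpure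
      have hj : qf < j := by
        by_contra h
        rw [not_lt] at h
        exact hP (mem_image.2 ⟨j, mem_Iic.2 h, rfl⟩)
      rw [hC', mem_filter, mem_antidiag]
      refine ⟨⟨Finsupp.degree_single _ _, fun i hi => ?_⟩, ?_⟩
      · rw [Finsupp.single_apply, if_neg]
        rintro rfl
        exact hi (mem_Ici.2 hj.le)
      · rw [Finsupp.single_apply, if_neg (ne_of_gt hj)]
        omega
    · push Not at hpure
      have hn : ∀ j, ¬ Finsupp.single j d ≤ e + fexp n d q b := by
        intro j hj
        exact hZ' ⟨hpure, j, hj⟩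
      rw [hC', mem_filter, mem_antidiag]
      refine ⟨⟨he, fun i hi => ?_⟩, ?_⟩
      · rw [mem_Ici, not_le] at hi
        have hi' : i.1 < q := hi
        have h1 := hn i
        rw [single_le_iff, Finsupp.add_apply, fexp_apply, if_pos hi'] at h1
        omega
      · have h1 := hn qf
        rw [single_le_iff, Finsupp.add_apply, fexp_apply, if_neg (lt_irrefl q), if_pos rfl] at h1
        omega
  have h1 := card_le_card hsub1
  rw [card_union_of_disjoint hdis, hG, hE1] at h1
  have h2 := card_le_card hsub2
  rw [hA] at h2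
  have h3 := card_union_le (Zset n d q b ∪ (Iic qf).image (fun j => Finsupp.single j d)) C'
  have h4 := card_union_le (Zset n d q b) ((Iic qf).image (fun j => Finsupp.single j d))
  rw [hE3] at h4
  omega

end Pool.Agent.Q267.Kos
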