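import Pool.Agent.Q267.Kos.Tee

/-!
# The monomial cycle
-/

open MvPolynomial TensorProduct

namespace Pool.Agent.Q267.Kos

variable {k : Type*} [Field k] {n : ℕ}

/-- the inclusion of the forms of degree `m` in the polynomial ring -/
noncomputable def poly (k : Type*) [Field k] (n m : ℕ) :
    Form k n m →ₗ[k] MvPolynomial (Fin (n + 1)) k :=
  (homogeneousSubmodule (Fin (n + 1)) k m).subtype

/-- a homogeneous polynomial of degree `m` as an element of `Form` -/
noncomputable def mkForm {m : ℕ} (g : MvPolynomial (Fin (n + 1)) k) (h : g.IsHomogeneous m) :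
    Form k n m := ⟨g, (mem_homogeneousSubmodule _ _).2 h⟩

theorem poly_mkForm {m : ℕ} (g : MvPolynomial (Fin (n + 1)) k) (h : g.IsHomogeneous m) :
    poly k n m (mkForm g h) = g := rfl

/-- the monomial with exponent vector `e` as a form of degree `m` (junk `0` if the degree is
wrong) -/
noncomputable def monForm (k : Type*) [Field k] (n m : ℕ) (e : Fin (n + 1) →₀ ℕ) : Form k n m :=
  if h : e.degree = m then mkForm (monomial e 1) (isHomogeneous_monomial 1 h) else 0

theorem poly_monForm {m : ℕ} {e : Fin (n + 1) →₀ ℕ} (h : e.degree = m) :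
    poly k n m (monForm k n m e) = monomial e 1 := by
  unfold monForm
  rw [dif_pos h, poly_mkForm]

theorem poly_injective (m : ℕ) : Function.Injective (poly k n m) := Subtype.val_injective

theorem poly_mulForm (d m : ℕ) (s : Form k n d) (f : Form k n m) :
    poly k n (m + d) (mulForm k n d m s f) = poly k n d s * poly k n m f := rfl

theorem isHomogeneous_poly (m : ℕ) (s : Form k n m) : (poly k n m s).IsHomogeneous m :=
  (mem_homogeneousSubmodule _ _).1 s.2

/-- multiplication of forms as a bilinear map -/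
noncomputable def mulLin (k : Type*) [Field k] (n d m : ℕ) :
    Form k n d →ₗ[k] Form k n m →ₗ[k] Form k n (m + d) :=
  LinearMap.mk₂ k (mulForm k n d m)
    (fun _ _ _ => Subtype.ext (add_mul _ _ _))
    (fun _ _ _ => Subtype.ext (smul_mul_assoc _ _ _))
    (fun _ _ _ => Subtype.ext (mul_add _ _ _))
    (fun _ _ _ => Subtype.ext (mul_smul_comm _ _ _))

theorem exists_isKoszul_form (k : Type*) [Field k] (n d m p : ℕ) :
    ∃ D : (⋀[k]^(p + 1) (Form k n d)) ⊗[k] Form k n m →ₗ[k]
        (⋀[k]^p (Form k n d)) ⊗[k] Form k n (m + d),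
      IsKoszul (mulForm k n d m) p D :=
  exists_isKoszul (mulLin k n d m) p

/-- the row of polynomials attached to a form and some functionals -/
noncomputable def row {d r : ℕ} (Λ : Fin r → Module.Dual k (Form k n d)) (v : Form k n d) :
    Fin (r + 1) → MvPolynomial (Fin (n + 1)) k :=
  Fin.cons (poly k n d v) (fun b => C (Λ b v))

theorem poly_tee_isKoszul {d r m : ℕ}
    {D : (⋀[k]^(r + 1) (Form k n d)) ⊗[k] Form k n m →ₗ[k]
      (⋀[k]^r (Form k n d)) ⊗[k] Form k n (m + d)}
    (hD : IsKoszul (mulForm k n d m) r D) (Λ : Fin r → Module.Dual k (Form k n d))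
    (v : Fin (r + 1) → Form k n d) (g : Form k n m) :
    poly k n (m + d) (tee _ Λ (D (exteriorPower.ιMulti k (r + 1) v ⊗ₜ[k] g))) =
      Matrix.det (Matrix.of fun i => row Λ (v i)) * poly k n m g := by
  rw [tee_isKoszul hD, map_sum, Matrix.det_succ_column_zero, Finset.sum_mul]
  refine Finset.sum_congr rfl fun i _ => ?_
  have h1 : Matrix.submatrix (Matrix.of fun i => row Λ (v i)) i.succAbove Fin.succ =
      (C : k →+* MvPolynomial (Fin (n + 1)) k).mapMatrix
        (Matrix.of fun a b => Λ b (v (i.succAbove a))) := by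
    ext a b : 2
    rfl
  rw [h1, ← RingHom.map_det, map_smul, poly_mulForm, MvPolynomial.smul_eq_C_mul, C_mul, C_pow,
    C_neg, C_1]
  change _ = (-1) ^ (i : ℕ) * poly k n d (v i) * _ * _
  ring

variable {d m p : ℕ} (f : Fin (n + 1) →₀ ℕ) (mon : Fin p → Fin (n + 1) →₀ ℕ)
  (jj : Fin p → Fin (n + 1))

/-- the exponent vector of the coefficient of the term `A` of the cycle -/
noncomputable def cexp (d : ℕ) (A : Finset (Fin p)) : Fin (n + 1) →₀ ℕ :=
  (f + ∑ i ∈ A, mon i) - ∑ i ∈ A, Finsupp.single (jj i) d

/-- the vectors whose wedge is the term `A` of the cycle -/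
noncomputable def wvec (k : Type*) [Field k] (d : ℕ) (A : Finset (Fin p)) : Fin p → Form k n d :=
  A.piecewise (fun i => monForm k n d (Finsupp.single (jj i) d)) (fun i => monForm k n d (mon i))

/-- the cycle -/
noncomputable def cyc (k : Type*) [Field k] (d m : ℕ) :
    (⋀[k]^p (Form k n d)) ⊗[k] Form k n m :=
  ∑ A : Finset (Fin p), (-1 : k) ^ A.card •
    (exteriorPower.ιMulti k p (wvec mon jj k d A) ⊗ₜ[k] monForm k n m (cexp f mon jj d A))

theorem cexp_add (h : ∀ i, Finsupp.single (jj i) d ≤ mon i + f) (A : Finset (Fin p))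
    (hA : Set.InjOn jj A) :
    cexp f mon jj d A + ∑ i ∈ A, Finsupp.single (jj i) d = f + ∑ i ∈ A, mon i := by
  unfold cexp
  apply tsub_add_cancel_of_le
  intro v
  rw [Finsupp.finsetSum_apply, Finsupp.add_apply, Finsupp.finsetSum_apply]
  by_cases hv : ∃ i ∈ A, jj i = v
  · obtain ⟨i, hi, rfl⟩ := hv
    rw [Finset.sum_eq_single_of_mem i hi]
    · have h1 := h i (jj i)
      rw [Finsupp.add_apply] at h1
      have h2 : mon i (jj i) ≤ ∑ i' ∈ A, mon i' (jj i) :=
        Finset.single_le_sum (f := fun i' => mon i' (jj i)) (fun _ _ => Nat.zero_le _) hi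
      omega
    · intro b hb hbi
      rw [Finsupp.single_apply, if_neg]
      intro h3
      exact hbi (hA hb hi h3)
  · rw [Finset.sum_eq_zero]
    · exact Nat.zero_le _
    · intro b hb
      rw [Finsupp.single_apply, if_neg]
      intro h3
      exact hv ⟨b, hb, h3⟩

theorem degree_cexp (h : ∀ i, Finsupp.single (jj i) d ≤ mon i + f) (hmon : ∀ i, (mon i).degree = d)
    (A : Finset (Fin p)) (hA : Set.InjOn jj A) : (cexp f mon jj d A).degree = f.degree := by
  have h1 := congrArg Finsupp.degree (cexp_add f mon jj h A hA)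
  rw [map_add, map_add, map_sum, map_sum] at h1
  simp only [Finsupp.degree_single, hmon] at h1
  omega

theorem cyc_cycle {r : ℕ} (mon : Fin (r + 1) → Fin (n + 1) →₀ ℕ) (jj : Fin (r + 1) → Fin (n + 1))
    (hf : f.degree = m) (h : ∀ i, Finsupp.single (jj i) d ≤ mon i + f)
    (hmon : ∀ i, (mon i).degree = d)
    {D : (⋀[k]^(r + 1) (Form k n d)) ⊗[k] Form k n m →ₗ[k]
      (⋀[k]^r (Form k n d)) ⊗[k] Form k n (m + d)}
    (hD : IsKoszul (mulForm k n d m) r D) :
    D (cyc f mon jj k d m) = 0 := by
  apply eq_zero_of_tee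
  intro Λ
  apply poly_injective
  rw [map_zero]
  unfold cyc
  simp only [map_sum, map_smul]
  simp only [poly_tee_isKoszul hD]
  set X : MvPolynomial (Fin (n + 1)) k := ∏ i, monomial (Finsupp.single (jj i) d) 1 with hX
  have hX0 : X ≠ 0 := by
    rw [hX, Finset.prod_ne_zero_iff]
    intro i _
    rw [Ne, monomial_eq_zero]
    exact one_ne_zero
  apply mul_left_cancel₀ hX0
  rw [mul_zero, Finset.mul_sum]
  -- the determinant with vanishing first column
  set R : Fin (r + 1) → Fin (r + 1) → MvPolynomial (Fin (n + 1)) k :=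
    fun i => row Λ (monForm k n d (mon i)) with hR
  set P : Fin (r + 1) → Fin (r + 1) → MvPolynomial (Fin (n + 1)) k :=
    fun i => row Λ (monForm k n d (Finsupp.single (jj i) d)) with hP
  set a : Fin (r + 1) → MvPolynomial (Fin (n + 1)) k := fun i => monomial (mon i) 1 with ha
  set x : Fin (r + 1) → MvPolynomial (Fin (n + 1)) k :=
    fun i => monomial (Finsupp.single (jj i) d) 1 with hx
  have hdet : Matrix.detRowAlternating ((fun i => (-a i) • P i) + (fun i => x i • R i)) = 0 := by
    change Matrix.det _ = 0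
    apply Matrix.det_eq_zero_of_column_eq_zero 0
    intro i
    have hR0 : R i 0 = a i := by
      change poly k n d (monForm k n d (mon i)) = _
      rw [poly_monForm (hmon i)]
    have hP0 : P i 0 = x i := by
      change poly k n d (monForm k n d (Finsupp.single (jj i) d)) = _
      rw [poly_monForm (Finsupp.degree_single _ _)]
    simp only [Pi.add_apply, Pi.smul_apply, smul_eq_mul, hR0, hP0]
    ring
  have hexp : Matrix.detRowAlternating ((fun i => (-a i) • P i) + (fun i => x i • R i)) =
      ∑ A : Finset (Fin (r + 1)), (∏ i, A.piecewise (fun i => -a i) x i) *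
        Matrix.det (Matrix.of (A.piecewise P R)) := by
    have h0 := MultilinearMap.map_add_univ
      (Matrix.detRowAlternating (n := Fin (r + 1)) (R := MvPolynomial (Fin (n + 1)) k)).toMultilinearMap
      (fun i => (-a i) • P i) (fun i => x i • R i)
    refine h0.trans (Finset.sum_congr rfl fun A _ => ?_)
    have h1 : A.piecewise (fun i => (-a i) • P i) (fun i => x i • R i) =
        fun i => (A.piecewise (fun i => -a i) x i) • (A.piecewise P R i) := by
      ext i
      by_cases hi : i ∈ A
      · simp [Finset.piecewise_eq_of_mem _ _ _ hi]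
      · simp [Finset.piecewise_eq_of_notMem _ _ _ hi]
    rw [h1, MultilinearMap.map_smul_univ]
    rfl
  have hfin : (monomial f (1 : k)) * Matrix.detRowAlternating
      ((fun i => (-a i) • P i) + (fun i => x i • R i)) = 0 := by
    rw [hdet, mul_zero]
  rw [hexp, Finset.mul_sum] at hfin
  rw [← hfin]
  refine Finset.sum_congr rfl fun A _ => ?_
  have hrow : (Matrix.of fun i => row Λ (wvec mon jj k d A i)) = Matrix.of (A.piecewise P R) := by
    congr 1
    ext i : 1
    by_cases hi : i ∈ A
    · simp [wvec, Finset.piecewise_eq_of_mem _ _ _ hi, hP]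
    · simp [wvec, Finset.piecewise_eq_of_notMem _ _ _ hi, hR]
  rw [hrow]
  by_cases hA : Set.InjOn jj A
  · rw [poly_monForm ((degree_cexp f mon jj h hmon A hA).trans hf)]
    have hprod : X * monomial (cexp f mon jj d A) 1 =
        (∏ i ∈ A, a i) * (∏ i ∈ Finset.univ \ A, x i) * monomial f 1 := by
      have h3 : X = (∏ i ∈ A, x i) * ∏ i ∈ Finset.univ \ A, x i := by
        rw [hX, mul_comm]
        exact (Finset.prod_sdiff (Finset.subset_univ A)).symm
      have h4 : (∏ i ∈ A, x i) * monomial (cexp f mon jj d A) 1 =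
          (∏ i ∈ A, a i) * monomial f 1 := by
        have h5 : ∀ (g : Fin (r + 1) → Fin (n + 1) →₀ ℕ),
            ∏ i ∈ A, (monomial (g i) (1 : k)) = monomial (∑ i ∈ A, g i) 1 := by
          intro g
          rw [monomial_sum_one]
        rw [hx, ha]
        simp only [h5]
        rw [monomial_mul, monomial_mul, one_mul, add_comm (∑ i ∈ A, Finsupp.single (jj i) d),
          cexp_add f mon jj h A hA, add_comm f]
      rw [h3]
      linear_combination (∏ i ∈ Finset.univ \ A, x i) * h4
    have hpw : ∏ i, A.piecewise (fun i => -a i) x i =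
        (-1) ^ A.card * (∏ i ∈ A, a i) * ∏ i ∈ Finset.univ \ A, x i := by
      rw [Finset.prod_piecewise, Finset.univ_inter, Finset.prod_neg]
    rw [hpw, MvPolynomial.smul_eq_C_mul, C_pow, C_neg, C_1]
    linear_combination ((-1) ^ A.card * Matrix.det (Matrix.of (A.piecewise P R))) * hprod
  · have h0 : Matrix.det (Matrix.of (A.piecewise P R)) = 0 := by
      unfold Set.InjOn at hA
      push Not at hA
      obtain ⟨i, hi, i', hi', hji, hne⟩ := hA
      apply Matrix.det_zero_of_row_eq hne
      change A.piecewise P R i = A.piecewise P R i'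
      rw [Finset.piecewise_eq_of_mem _ _ _ hi, Finset.piecewise_eq_of_mem _ _ _ hi', hP]
      simp only [hji]
    rw [h0]
    simp

end Pool.Agent.Q267.Kos
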