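import Mathlib

/-!
# The Koszul complex of the Veronese embeddings
-/

open MvPolynomial TensorProduct

namespace Pool.Agent.Q267.Kos

/-- Let `mul : V × N → N'`, `(s, f) ↦ s f`. The linear map
`D : Λ^(p+1) V ⊗ N → Λ^p V ⊗ N'` is the Koszul differential, namely
`D (s_0 ∧ ⋯ ∧ s_p ⊗ f) = ∑_i (-1)^i s_0 ∧ ⋯ ŝ_i ⋯ ∧ s_p ⊗ s_i f` for all `s_i ∈ V`, `f ∈ N`
(these elements span, so there is at most one such `D`). -/
def IsKoszul {k V N N' : Type*} [Field k] [AddCommGroup V] [Module k V] [AddCommGroup N]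
    [Module k N] [AddCommGroup N'] [Module k N'] (mul : V → N → N') (p : ℕ)
    (D : (⋀[k]^(p + 1) V) ⊗[k] N →ₗ[k] (⋀[k]^p V) ⊗[k] N') : Prop :=
  ∀ (s : Fin (p + 1) → V) (f : N),
    D (exteriorPower.ιMulti k (p + 1) s ⊗ₜ[k] f) =
      ∑ i : Fin (p + 1), (-1 : k) ^ (i : ℕ) •
        (exteriorPower.ιMulti k p (i.removeNth s) ⊗ₜ[k] mul (s i) f)

/-- The Koszul differentials
`Λ^(r+2) V ⊗ N₁ → Λ^(r+1) V ⊗ N₂ → Λ^r V ⊗ N₃`
exist and the cohomology at the middle term does not vanish: some element of the kernel of the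
second is not in the image of the first. -/
def KoszulNonzero (k : Type*) {V N₁ N₂ N₃ : Type*} [Field k] [AddCommGroup V] [Module k V]
    [AddCommGroup N₁] [Module k N₁] [AddCommGroup N₂] [Module k N₂] [AddCommGroup N₃] [Module k N₃]
    (mul₁ : V → N₁ → N₂) (mul₂ : V → N₂ → N₃) (r : ℕ) : Prop :=
  ∃ (D₁ : (⋀[k]^(r + 2) V) ⊗[k] N₁ →ₗ[k] (⋀[k]^(r + 1) V) ⊗[k] N₂)
    (D₀ : (⋀[k]^(r + 1) V) ⊗[k] N₂ →ₗ[k] (⋀[k]^r V) ⊗[k] N₃),
    IsKoszul mul₁ (r + 1) D₁ ∧ IsKoszul mul₂ r D₀ ∧ ∃ z, D₀ z = 0 ∧ ∀ y, D₁ y ≠ z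

/-- `S^m U` for `dim U = n + 1`: the `k`-vector space of forms of degree `m` in the variables
`x_0, …, x_n` over the field `k`. -/
abbrev Form (k : Type*) [Field k] (n m : ℕ) : Submodule k (MvPolynomial (Fin (n + 1)) k) :=
  homogeneousSubmodule (Fin (n + 1)) k m

/-- multiplication of forms `S^d U × S^m U → S^(m+d) U`, `(s, f) ↦ s f` -/
noncomputable def mulForm (k : Type*) [Field k] (n d m : ℕ) (s : Form k n d) (f : Form k n m) :
    Form k n (m + d) :=
  ⟨s.1 * f.1, (mem_homogeneousSubmodule _ _).2 (by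
      have h := IsHomogeneous.mul ((mem_homogeneousSubmodule _ _).1 f.2)
        ((mem_homogeneousSubmodule _ _).1 s.2)
      rwa [mul_comm] at h)⟩

section Existence

variable (k : Type*) [Field k] (p : ℕ) (V : Type*) [AddCommGroup V] [Module k V]

/-- a copy of the `p`-th exterior power, whose only additive structure is that of a group -/
def Wedge : Type _ := ↥(⋀[k]^p V)

noncomputable instance : AddCommGroup (Wedge k p V) :=
  inferInstanceAs (AddCommGroup ↥(⋀[k]^p V))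

noncomputable instance : Module k (Wedge k p V) :=
  inferInstanceAs (Module k ↥(⋀[k]^p V))

/-- the identification with the exterior power -/
noncomputable def toWedge : (⋀[k]^p V) →ₗ[k] Wedge k p V where
  toFun x := x
  map_add' _ _ := rfl
  map_smul' _ _ := rfl

/-- the identification with the exterior power -/
noncomputable def ofWedge : Wedge k p V →ₗ[k] (⋀[k]^p V) where
  toFun x := x
  map_add' _ _ := rfl
  map_smul' _ _ := rfl

variable {V}

/-- the universal alternating map -/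
noncomputable def wedge : V [⋀^Fin p]→ₗ[k] Wedge k p V := exteriorPower.ιMulti k p

variable {k p} {N N' : Type*} [AddCommGroup N] [Module k N] [AddCommGroup N'] [Module k N']

/-- the linear map given by an alternating map -/
noncomputable def wedgeLift (f : V [⋀^Fin p]→ₗ[k] N) : Wedge k p V →ₗ[k] N :=
  exteriorPower.alternatingMapLinearEquiv f

theorem wedgeLift_wedge (f : V [⋀^Fin p]→ₗ[k] N) (v : Fin p → V) :
    wedgeLift f (wedge k p v) = f v :=
  exteriorPower.alternatingMapLinearEquiv_apply_ιMulti f v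

/-- the alternating map `(s_1, …, s_p) ↦ (f ↦ (s_1 ∧ ⋯ ∧ s_p) ⊗ (s f))`; it is linear in `s` -/
noncomputable def wedgeMul (μ : V →ₗ[k] N →ₗ[k] N') (p : ℕ) :
    V →ₗ[k] V [⋀^Fin p]→ₗ[k] (N →ₗ[k] Wedge k p V ⊗[k] N') where
  toFun s := ((TensorProduct.mk k (Wedge k p V) N').compl₂ (μ s)).compAlternatingMap (wedge k p)
  map_add' s t := by
    ext v f : 2
    simp [TensorProduct.tmul_add]
  map_smul' c s := by
    ext v f : 2
    simp

/-- the Koszul differential on the copies -/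
noncomputable def koszulD (μ : V →ₗ[k] N →ₗ[k] N') (p : ℕ) :
    Wedge k (p + 1) V ⊗[k] N →ₗ[k] Wedge k p V ⊗[k] N' :=
  TensorProduct.lift (wedgeLift (AlternatingMap.alternatizeUncurryFin (wedgeMul μ p)))

theorem koszulD_tmul (μ : V →ₗ[k] N →ₗ[k] N') (p : ℕ) (v : Fin (p + 1) → V) (f : N) :
    koszulD μ p (wedge k (p + 1) v ⊗ₜ[k] f) =
      ∑ i : Fin (p + 1), (-1 : ℤ) ^ (i : ℕ) •
        (wedge k p (i.removeNth v) ⊗ₜ[k] μ (v i) f) := by
  unfold koszulD
  rw [TensorProduct.lift.tmul, wedgeLift_wedge,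
    AlternatingMap.alternatizeUncurryFin_apply, LinearMap.sum_apply]
  rfl

theorem koszulD_tmul' (μ : V →ₗ[k] N →ₗ[k] N') (p : ℕ) (v : Fin (p + 1) → V) (f : N) :
    koszulD μ p (wedge k (p + 1) v ⊗ₜ[k] f) =
      ∑ i : Fin (p + 1), (-1 : k) ^ (i : ℕ) •
        (wedge k p (i.removeNth v) ⊗ₜ[k] μ (v i) f) := by
  rw [koszulD_tmul]
  refine Finset.sum_congr rfl fun i _ => ?_
  rcases Nat.even_or_odd (i : ℕ) with h | h
  · rw [h.neg_one_pow, h.neg_one_pow, one_smul, one_smul]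
  · rw [h.neg_one_pow, h.neg_one_pow, neg_smul, neg_smul, one_smul, one_smul]

/-- The Koszul differential exists. -/
theorem exists_isKoszul (μ : V →ₗ[k] N →ₗ[k] N') (p : ℕ) :
    ∃ D : (⋀[k]^(p + 1) V) ⊗[k] N →ₗ[k] (⋀[k]^p V) ⊗[k] N',
      IsKoszul (fun s f => μ s f) p D := by
  refine ⟨LinearMap.rTensor N' (ofWedge k p V) ∘ₗ koszulD μ p ∘ₗ
    LinearMap.rTensor N (toWedge k (p + 1) V), fun s f => ?_⟩
  rw [LinearMap.comp_apply, LinearMap.comp_apply, LinearMap.rTensor_tmul]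
  change LinearMap.rTensor N' (ofWedge k p V) (koszulD μ p (wedge k (p + 1) s ⊗ₜ[k] f)) = _
  rw [koszulD_tmul', map_sum]
  refine Finset.sum_congr rfl fun i _ => ?_
  rw [map_smul, LinearMap.rTensor_tmul]
  rfl

end Existence

end Pool.Agent.Q267.Kos
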