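import Pool.Agent.Q267.Kos.Defs

/-!
# Testing elements of `Λ^p V ⊗ N` with functionals
-/

open MvPolynomial TensorProduct

namespace Pool.Agent.Q267.Kos

variable {k : Type*} [Field k] {p : ℕ} {V : Type*} [AddCommGroup V] [Module k V]
variable {N N' : Type*} [AddCommGroup N] [Module k N] [AddCommGroup N'] [Module k N']

/-- the functional on `Λ^p V` given by `p` functionals on `V` -/
noncomputable def wdual (Λ : Fin p → Module.Dual k V) : (⋀[k]^p V) →ₗ[k] k :=
  exteriorPower.pairingDual k V p (exteriorPower.ιMulti k p Λ)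

theorem wdual_wedge (Λ : Fin p → Module.Dual k V) (v : Fin p → V) :
    wdual Λ (exteriorPower.ιMulti k p v) = (Matrix.of fun i j => Λ j (v i)).det :=
  exteriorPower.pairingDual_ιMulti_ιMulti Λ v

/-- contraction of `Λ^p V ⊗ N` with `p` functionals on `V` -/
noncomputable def tee (N : Type*) [AddCommGroup N] [Module k N] (Λ : Fin p → Module.Dual k V) :
    (⋀[k]^p V) ⊗[k] N →ₗ[k] N :=
  (TensorProduct.lid k N).toLinearMap ∘ₗ LinearMap.rTensor N (wdual Λ)

theorem tee_tmul (Λ : Fin p → Module.Dual k V) (v : Fin p → V) (f : N) :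
    tee N Λ (exteriorPower.ιMulti k p v ⊗ₜ[k] f) =
      (Matrix.of fun i j => Λ j (v i)).det • f := by
  unfold tee
  rw [LinearMap.comp_apply, LinearMap.rTensor_tmul, wdual_wedge]
  simp

theorem eq_zero_of_tee (y : (⋀[k]^p V) ⊗[k] N)
    (h : ∀ Λ : Fin p → Module.Dual k V, tee N Λ y = 0) : y = 0 := by
  classical
  have ⟨I, b⟩ := Module.Free.exists_basis k V
  let : LinearOrder I := linearOrderOfSTO WellOrderingRel
  let B : Module.Basis (Set.powersetCard I p) k (⋀[k]^p V) := b.exteriorPower p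
  have hB : ∀ s, B.coord s = wdual (b.coord ∘ (Set.powersetCard.ofFinEmbEquiv.symm s)) :=
    fun s => exteriorPower.basis_coord k p b s
  apply (TensorProduct.equivFinsuppOfBasisLeft (N := N) B).injective
  rw [map_zero]
  ext s
  rw [TensorProduct.equivFinsuppOfBasisLeft_apply, hB]
  exact h _

theorem tee_isKoszul {mul : V → N → N'} {D : (⋀[k]^(p + 1) V) ⊗[k] N →ₗ[k] (⋀[k]^p V) ⊗[k] N'}
    (hD : IsKoszul mul p D) (Λ : Fin p → Module.Dual k V)
    (v : Fin (p + 1) → V) (f : N) :
    tee N' Λ (D (exteriorPower.ιMulti k (p + 1) v ⊗ₜ[k] f)) =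
      ∑ i : Fin (p + 1), ((-1 : k) ^ (i : ℕ) *
        (Matrix.of fun a b => Λ b (v (i.succAbove a))).det) • mul (v i) f := by
  rw [hD, map_sum]
  refine Finset.sum_congr rfl fun i _ => ?_
  rw [map_smul, tee_tmul, mul_smul]
  rfl

/-- the contraction of a boundary with functionals, tested by one more functional: a
determinant -/
theorem functional_isKoszul {mul : V → N → N'}
    {D : (⋀[k]^(p + 1) V) ⊗[k] N →ₗ[k] (⋀[k]^p V) ⊗[k] N'}
    (hD : IsKoszul mul p D) (Λ : Fin p → Module.Dual k V)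
    (θ : N' →ₗ[k] k) (v : Fin (p + 1) → V) (f : N) :
    θ (tee N' Λ (D (exteriorPower.ιMulti k (p + 1) v ⊗ₜ[k] f))) =
      (Matrix.of fun (i : Fin (p + 1)) (j : Fin (p + 1)) =>
        (Fin.cons (θ (mul (v i) f)) (fun b => Λ b (v i)) : Fin (p + 1) → k) j).det := by
  rw [tee_isKoszul hD, map_sum, Matrix.det_succ_column_zero]
  refine Finset.sum_congr rfl fun i _ => ?_
  rw [map_smul, smul_eq_mul, mul_right_comm]
  rfl

/-- If the functional `f ↦ θ (s f)` is, for every `f`, a combination of the functionals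
`Λ_1, …, Λ_p` of `s`, then `θ` kills the contraction of every boundary with `Λ_1, …, Λ_p`. -/
theorem functional_range {mul : V → N → N'}
    {D : (⋀[k]^(p + 1) V) ⊗[k] N →ₗ[k] (⋀[k]^p V) ⊗[k] N'}
    (hD : IsKoszul mul p D) (Λ : Fin p → Module.Dual k V)
    (θ : N' →ₗ[k] k) (h : ∀ f : N, ∃ c : Fin p → k, ∀ s : V, θ (mul s f) = ∑ b, c b * Λ b s)
    (y : (⋀[k]^(p + 1) V) ⊗[k] N) : θ (tee N' Λ (D y)) = 0 := by
  have key : θ ∘ₗ tee N' Λ ∘ₗ D = 0 := by
    apply TensorProduct.ext
    apply exteriorPower.linearMap_ext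
    ext v f
    change θ (tee N' Λ (D (exteriorPower.ιMulti k (p + 1) v ⊗ₜ[k] f))) = 0
    rw [functional_isKoszul hD]
    obtain ⟨c, hc⟩ := h f
    rw [← Matrix.exists_mulVec_eq_zero_iff]
    refine ⟨Fin.cons 1 (fun b => - c b), ?_, ?_⟩
    · intro h0
      have := congrFun h0 0
      simp at this
    · ext i
      simp only [Matrix.mulVec, dotProduct, Matrix.of_apply]
      rw [Fin.sum_univ_succ]
      simp only [Fin.cons_zero, Fin.cons_succ]
      rw [hc]
      simp [mul_comm]
  exact LinearMap.congr_fun key y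

end Pool.Agent.Q267.Kos
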